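import Mathlib

set_option linter.unusedSectionVars false

namespace Pool.Agent.H.MP_6c9e22_co

open Finset

variable {I C : Type*} [Fintype I] [DecidableEq I] [Fintype C] [DecidableEq C]
  (c : I → Bool → I → Bool → C)

/-- colours used at a literal -/
def used (i : I) (s : Bool) : Finset C := univ.filter (fun a => ∃ j t, j ≠ i ∧ c i s j t = a)

/-- colours used at both signs -/
def S (i : I) : Finset C := used c i true ∩ used c i false

/-- colours reserved for one sign -/
def A (i : I) (s : Bool) : Finset C :=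
  if s then (used c i false)ᶜ else used c i false \ used c i true

/-- partner relation -/
def R (i j : I) : Prop := ∃ s t, c i s j t ∈ S c i

lemma mem_A {i j : I} (h : j ≠ i) (s t : Bool) (ha : c i s j t ∉ S c i) : c i s j t ∈ A c i s := by
  have : c i s j t ∈ used c i s := mem_filter.2 ⟨mem_univ _, j, t, h, rfl⟩
  cases s <;> simp_all [S, A]

lemma disj_A (i : I) (s : Bool) {a : C} (h : a ∈ A c i s) : a ∉ A c i (!s) ∧ a ∉ S c i := by
  cases s <;> simp_all [S, A]

lemma cover_A (i : I) (a : C) : a ∈ S c i ∨ a ∈ A c i true ∨ a ∈ A c i false := by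
  simp only [S, A, mem_inter, if_true, mem_compl, Bool.false_eq_true, if_false, mem_sdiff]
  tauto

variable (hs : ∀ i s j t, c i s j t = c j t i s)
  (hp : ∀ i s j t l u, j ≠ i → l ≠ i → c i s j t = c i (!s) l u → j = l ∧ t = u)
include hp

lemma star {i j : I} (h : j ≠ i) {s t : Bool} (ha : c i s j t ∈ S c i) :
    c i (!s) j t = c i s j t := by
  have : c i s j t ∈ used c i (!s) := by cases s <;> simp_all [S]
  obtain ⟨l, u, h1, h2⟩ := (mem_filter.1 this).2
  obtain ⟨rfl, rfl⟩ := hp i s j t l u h h1 h2.symm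
  exact h2

lemma uniq {i j l : I} (h : j ≠ i) (h' : l ≠ i) {s t s' u : Bool} (ha : c i s j t ∈ S c i)
    (e : c i s' l u = c i s j t) : l = j ∧ u = t := by
  by_cases c1 : s' = s
  · subst c1
    exact hp i s' l u j t h' h (e.trans (star c hp h ha).symm)
  · have : s = !s' := by cases s <;> cases s' <;> simp_all
    subst this
    exact hp i s' l u j t h' h e

lemma clique (Z : Finset I) (hZ : ∀ i ∈ Z, ∀ j ∈ Z, j ≠ i → R c i j ∨ R c j i) :
    Z.card ≤ 2 * Fintype.card C + 1 := by
  classical
  have out : ∀ i, (Z.filter (fun j => j ≠ i ∧ R c i j)).card ≤ Fintype.card C := by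
    intro i
    have := card_mul_le_card_mul (s := Z.filter (fun j => j ≠ i ∧ R c i j)) (t := (univ : Finset C))
      (fun j a => j ≠ i ∧ ∃ s t, c i s j t ∈ S c i ∧ c i s j t = a) (m := 1) (n := 1)
      (fun j hj => by
        obtain ⟨h1, s, t, h2⟩ := (mem_filter.1 hj).2
        exact card_pos.2 ⟨_, mem_filter.2 ⟨mem_univ _, h1, s, t, h2, rfl⟩⟩)
      (fun a _ => card_le_one.2 fun j hj l hl => by
        obtain ⟨h1, s, t, h2, h3⟩ := (mem_filter.1 hj).2
        obtain ⟨h4, s', u, -, h6⟩ := (mem_filter.1 hl).2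
        exact (uniq c hp h1 h4 h2 (h6.trans h3.symm)).1.symm)
    simpa using this
  have a1 : ∑ i ∈ Z, (Z.filter (fun j => j ≠ i ∧ R c i j)).card ≤ Z.card * Fintype.card C := by
    rw [← smul_eq_mul]; exact sum_le_card_nsmul _ _ _ (fun u _ => out u)
  have a2 : ∑ i ∈ Z, (Z.filter (fun j => i ≠ j ∧ R c j i)).card =
      ∑ i ∈ Z, (Z.filter (fun j => j ≠ i ∧ R c i j)).card := by
    simp only [card_filter]
    rw [sum_comm]
  have a3 : ∑ i ∈ Z, Z.card ≤ ∑ i ∈ Z, ((Z.filter (fun j => j ≠ i ∧ R c i j)).card +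
      (Z.filter (fun j => i ≠ j ∧ R c j i)).card + 1) := by
    refine sum_le_sum fun i hi => ?_
    rw [← card_erase_add_one hi]
    refine Nat.add_le_add_right ((card_le_card fun j hj => ?_).trans (card_union_le _ _)) _
    rw [mem_erase] at hj
    rcases hZ i hi j hj.2 hj.1 with h | h
    · exact mem_union_left _ (mem_filter.2 ⟨hj.2, hj.1, h⟩)
    · exact mem_union_right _ (mem_filter.2 ⟨hj.2, hj.1.symm, h⟩)
  rw [sum_add_distrib, sum_add_distrib, a2, sum_const, sum_const, smul_eq_mul, smul_eq_mul] at a3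
  rcases Nat.eq_zero_or_pos Z.card with h | h
  · omega
  · exact Nat.le_of_mul_le_mul_left (by nlinarith) h

include hs

lemma rel {i j : I} (h : j ≠ i) (s t : Bool) (hd : ∀ a ∈ A c i s, a ∉ A c j t) :
    R c i j ∨ R c j i := by
  by_contra hn
  rw [not_or] at hn
  refine hd _ (mem_A c h s t fun h' => hn.1 ⟨s, t, h'⟩) ?_
  rw [hs]
  exact mem_A c h.symm t s fun h' => hn.2 ⟨t, s, h'⟩

lemma count1 (σ : ℕ) : (univ.filter (fun i => σ ≤ (S c i).card)).card * 2 ^ σ ≤
    2 ^ Fintype.card C * (2 * Fintype.card C + 1) := by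
  have := card_mul_le_card_mul (s := univ.filter (fun i => σ ≤ (S c i).card))
    (t := (univ : Finset (Finset C)))
    (fun i T => A c i true ⊆ T ∧ Disjoint T (A c i false)) (m := 2 ^ σ) (n := 2 * Fintype.card C + 1)
    (fun i hi => by
      refine (Nat.pow_le_pow_right (by norm_num) (mem_filter.1 hi).2).trans ?_
      rw [← card_powerset]
      refine card_le_card_of_injOn (fun U => A c i true ∪ U) (fun U hU => ?_) (fun U hU U' hU' e => ?_)
      · refine mem_coe.2 (mem_filter.2 ⟨mem_univ _, subset_union_left, disjoint_left.2 fun a ha h => ?_⟩)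
        rcases mem_union.1 ha with h' | h'
        · exact (disj_A c i false h).1 h'
        · exact (disj_A c i false h).2 (mem_powerset.1 hU h')
      · have k : ∀ a ∈ A c i true, a ∉ S c i := fun a ha => (disj_A c i true ha).2
        have e1 := mem_powerset.1 hU
        have e2 := mem_powerset.1 hU'
        ext a
        have e3 : a ∈ A c i true ∪ U ↔ a ∈ A c i true ∪ U' := by rw [show A c i true ∪ U = _ from e]
        rw [mem_union, mem_union] at e3
        constructor
        · intro h; exact (e3.1 (Or.inr h)).resolve_left fun h' => k a h' (e1 h)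
        · intro h; exact (e3.2 (Or.inr h)).resolve_left fun h' => k a h' (e2 h))
    (fun T _ => clique c hp _ fun i hi j hj h => rel c hs hp h true false fun a ha ha' =>
      disjoint_left.1 (mem_filter.1 hj).2.2 ((mem_filter.1 hi).2.1 ha) ha')
  simpa using this

lemma count2 (σ : ℕ) (s : Bool) : (univ.filter (fun i => (A c i s).card < σ)).card ≤
    (univ.filter (fun T : Finset C => T.card < σ)).card * (2 * Fintype.card C + 1) := by
  have := card_mul_le_card_mul (s := univ.filter (fun i => (A c i s).card < σ))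
    (t := univ.filter (fun T : Finset C => T.card < σ))
    (fun i T => A c i s = T) (m := 1) (n := 2 * Fintype.card C + 1)
    (fun i hi => card_pos.2 ⟨_, mem_filter.2 ⟨mem_filter.2 ⟨mem_univ _, (mem_filter.1 hi).2⟩, rfl⟩⟩)
    (fun T _ => clique c hp _ fun i hi j hj h => rel c hs hp h s (!s) fun a ha ha' => by
      rw [(mem_filter.1 hi).2, ← (mem_filter.1 hj).2] at ha
      exact (disj_A c j s ha).1 ha')
  simpa using this

lemma count3 (σ : ℕ) (hσ : 0 < σ) (G : Finset I)
    (hG : ∀ i ∈ G, (S c i).card < σ ∧ ∀ s, σ ≤ (A c i s).card) :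
    G.card * 2 ≤ (Fintype.card C).choose (Fintype.card C / 2) := by
  classical
  let need : I → C → Prop := fun i a => ∃ j t, j ≠ i ∧ c i true j t = a ∧ ∀ b ∈ A c i true, b ∉ A c j t
  let T : I → Bool → Finset C := fun i s =>
    A c i s ∪ (S c i).filter (fun a => if s then need i a else ¬ need i a)
  have hT : ∀ i s, A c i s ⊆ T i s := fun i s => subset_union_left
  have hD : ∀ i s a, a ∈ T i s → a ∉ T i (!s) := by
    intro i s a h1 h2
    simp only [T, mem_union, mem_filter] at h1 h2
    rcases h1 with h1 | h1 <;> rcases h2 with h2 | h2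
    · exact (disj_A c i s h1).1 h2
    · exact (disj_A c i s h1).2 h2.1
    · exact (disj_A c i _ h2).2 h1.1
    · cases s
      · exact (by simpa using h1.2 : ¬ need i a) (by simpa using h2.2)
      · exact (by simpa using h2.2 : ¬ need i a) (by simpa using h1.2)
  have one : ∀ i ∈ G, ∀ j ∈ G, j ≠ i → ∀ s t, c i s j t ∈ S c i → ∃ a ∈ T i s, a ∈ T j t := by
    intro i hi j hj h s t ha
    have h1 : c i s j t ∈ A c j t := by
      rw [hs]
      refine mem_A c h.symm t s fun h' => ?_
      have e1 := star c hp h ha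
      have e2 := star c hp h.symm h'
      rw [hs j, hs j] at e2
      have := (hp i s j (!t) j t h h (e2.trans e1.symm)).2
      cases t <;> simp at this
    have h2 : c i true j t = c i s j t := by
      cases s
      · exact star c hp h ha
      · rfl
    by_cases hn : need i (c i s j t)
    · cases s
      · obtain ⟨l, u, l1, l2, l3⟩ := hn
        obtain ⟨rfl, rfl⟩ := uniq c hp h l1 ha l2
        obtain ⟨b, b1, b2⟩ := exists_mem_notMem_of_card_lt_card
          ((hG i hi).1.trans_le ((hG l hj).2 u))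
        rcases cover_A c i b with b3 | b3 | b3
        · exact absurd b3 b2
        · exact absurd b1 (l3 b b3)
        · exact ⟨b, hT _ _ b3, hT _ _ b1⟩
      · exact ⟨_, mem_union_right _ (mem_filter.2 ⟨ha, by simpa using hn⟩), hT _ _ h1⟩
    · cases s
      · exact ⟨_, mem_union_right _ (mem_filter.2 ⟨ha, by simpa using hn⟩), hT _ _ h1⟩
      · by_contra hc
        exact hn ⟨j, t, h, rfl, fun b b1 b2 => hc ⟨b, hT _ _ b1, hT _ _ b2⟩⟩
  have two : ∀ i ∈ G, ∀ j ∈ G, j ≠ i → ∀ s t, ∃ a ∈ T i s, a ∈ T j t := by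
    intro i hi j hj h s t
    by_cases h1 : c i s j t ∈ S c i
    · exact one i hi j hj h s t h1
    by_cases h2 : c j t i s ∈ S c j
    · obtain ⟨a, a1, a2⟩ := one j hj i hi h.symm t s h2
      exact ⟨a, a2, a1⟩
    · exact ⟨_, hT _ _ (mem_A c h s t h1), by rw [hs]; exact hT _ _ (mem_A c h.symm t s h2)⟩
  have three : ∀ i ∈ G, ∀ j ∈ G, ∀ s t, T i s ⊆ T j t → i = j ∧ s = t := by
    intro i hi j hj s t h
    by_cases e : j = i
    · subst e
      refine ⟨rfl, ?_⟩
      by_contra e
      have : t = !s := by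
        revert e
        cases s <;> cases t <;> simp
      subst this
      obtain ⟨a, ha⟩ := card_pos.1 (hσ.trans_le ((hG j hj).2 s))
      exact hD j s a (hT _ _ ha) (h (hT _ _ ha))
    · obtain ⟨a, a1, a2⟩ := two i hi j hj e s (!t)
      exact absurd a2 (hD j t a (h a1))
  have h4 : IsAntichain (· ⊆ ·)
      (((G ×ˢ (univ : Finset Bool)).image (fun p => T p.1 p.2) : Finset (Finset C)) : Set (Finset C)) := by
    intro X hX Y hY hne h
    obtain ⟨p, p1, rfl⟩ := mem_image.1 hX
    obtain ⟨q, q1, rfl⟩ := mem_image.1 hY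
    obtain ⟨e1, e2⟩ := three _ (mem_product.1 p1).1 _ (mem_product.1 q1).1 _ _ h
    exact hne (by rw [e1, e2])
  have h5 := h4.sperner
  rw [card_image_of_injOn (fun p p1 q q1 e => by
    obtain ⟨e1, e2⟩ := three _ (mem_product.1 p1).1 _ (mem_product.1 q1).1 _ _ (le_of_eq e)
    exact Prod.ext e1 e2)] at h5
  simpa using h5

omit hs hp in
lemma small (q : ℕ) (hC : Fintype.card C = 8 * q + 1) :
    (univ.filter (fun T : Finset C => T.card < q)).card ≤ 2 * 128 ^ q := by
  have h1 := Fintype.sum_pow_mul_eq_add_pow C (1 : ℕ) 3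
  have h2 : ∑ T ∈ univ.filter (fun T : Finset C => T.card < q), 3 ^ (7 * q + 1) ≤
      ∑ T : Finset C, 1 ^ T.card * 3 ^ (Fintype.card C - T.card) := by
    refine (sum_le_sum fun T hT => ?_).trans (sum_le_sum_of_subset (filter_subset _ _))
    rw [one_pow, one_mul]
    have := (mem_filter.1 hT).2
    exact Nat.pow_le_pow_right (by norm_num) (by omega)
  rw [h1, sum_const, smul_eq_mul, hC] at h2
  have h3 : (1 + 3) ^ (8 * q + 1) ≤ 2 * 128 ^ q * 3 ^ (7 * q + 1) := by
    rw [pow_succ, pow_succ, pow_mul, pow_mul]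
    have : ((1 + 3) ^ 8) ^ q ≤ (128 * 3 ^ 7) ^ q := Nat.pow_le_pow_left (by norm_num) _
    rw [mul_pow] at this
    generalize ((1 + 3) ^ 8) ^ q = x at *
    generalize (3 ^ 7) ^ q = y at *
    generalize 128 ^ q = z at *
    nlinarith
  exact Nat.le_of_mul_le_mul_right (h2.trans h3) (by positivity)

theorem core (q : ℕ) (hq : 30 ≤ q) (hC : Fintype.card C = 8 * q + 1) :
    Fintype.card I < (2 * (4 * q)).choose (4 * q) := by
  have h1 := count1 c hs hp q
  have h2 := count2 c hs hp q true
  have h3 := count2 c hs hp q false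
  have h4 := count3 c hs hp q (by omega) (univ.filter (fun i => (S c i).card < q ∧ ∀ s, q ≤ (A c i s).card))
    (fun i hi => (mem_filter.1 hi).2)
  have h5 := small (C := C) q hC
  have h6 : Fintype.card I ≤ (univ.filter (fun i => (S c i).card < q ∧ ∀ s, q ≤ (A c i s).card)).card +
      ((univ.filter (fun i => q ≤ (S c i).card)).card + ((univ.filter (fun i => (A c i true).card < q)).card +
      (univ.filter (fun i => (A c i false).card < q)).card)) := by
    refine le_trans ?_ (Nat.add_le_add_left (Nat.add_le_add_left (card_union_le _ _) _) _)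
    refine le_trans ?_ (Nat.add_le_add_left (card_union_le _ _) _)
    refine le_trans (card_le_card fun i _ => ?_) (card_union_le _ _)
    simp only [mem_union, mem_filter, mem_univ, true_and, Bool.forall_bool]
    omega
  rw [hC] at h1 h2 h3 h4
  have h7 : 8262 * q ^ 3 < 2 ^ q := by
    clear h1 h2 h3 h4 h5 h6 hC
    induction q, hq using Nat.le_induction with
    | base => norm_num
    | succ q hq ih =>
      rw [pow_succ 2]
      have : 30 * q ^ 2 ≤ q ^ 3 := by nlinarith [Nat.mul_le_mul_right (q ^ 2) hq]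
      nlinarith
  have h8 := Nat.four_pow_le_two_mul_add_one_mul_central_binom (4 * q)
  have h9 : (8 * q + 1).choose ((8 * q + 1) / 2) * (4 * q + 1) =
      (8 * q + 1) * (2 * (4 * q)).choose (4 * q) := by
    have := Nat.add_one_mul_choose_eq (8 * q) (4 * q)
    rw [show (8 * q + 1) / 2 = 4 * q by omega, show 2 * (4 * q) = 8 * q by ring, this,
      Nat.choose_symm_of_eq_add (show 8 * q + 1 = 4 * q + (4 * q + 1) by ring)]
  have e1 : 2 ^ (8 * q + 1) = 2 * 128 ^ q * 2 ^ q := by
    rw [pow_succ, pow_mul, mul_assoc, ← mul_pow]; norm_num; ring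
  have e2 : 4 ^ (4 * q) = 128 ^ q * 2 ^ q := by
    rw [pow_mul, ← mul_pow]; norm_num
  rw [e1, mul_right_comm] at h1
  have h10 := Nat.le_of_mul_le_mul_right h1 (by positivity)
  rw [e2] at h8
  have h11 := h2.trans (Nat.mul_le_mul_right _ h5)
  have h12 := h3.trans (Nat.mul_le_mul_right _ h5)
  generalize (2 * (4 * q)).choose (4 * q) = M at *
  generalize (8 * q + 1).choose ((8 * q + 1) / 2) = M' at *
  have p0 : 0 < 128 ^ q := by positivity
  generalize 128 ^ q = P at *
  have k1 : 6 * (16 * q + 3) * (8 * q + 2) * (8 * q + 1) ≤ 8262 * q ^ 3 := by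
    calc _ ≤ 6 * (17 * q) * (9 * q) * (9 * q) := by gcongr <;> omega
      _ = _ := by ring
  have k2 : (8 * q + 1) * (6 * P * (16 * q + 3) * (8 * q + 2)) < (8 * q + 1) * M := by
    have := mul_lt_mul_of_pos_left (k1.trans_lt h7) p0
    nlinarith
  have k3 := Nat.lt_of_mul_lt_mul_left k2
  by_contra hn
  have k4 : M ≤ (univ.filter (fun i => (S c i).card < q ∧ ∀ s, q ≤ (A c i s).card)).card +
      6 * P * (16 * q + 3) := by nlinarith
  have k5 := Nat.mul_le_mul_right (4 * q + 1) h4
  have k6 := Nat.mul_le_mul_right (8 * q + 2) k4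
  nlinarith

end Pool.Agent.H.MP_6c9e22_co
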